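import Mathlib

set_option autoImplicit false

namespace Pool.Agent.D0L

/-- the morphism: `0 ↦ 101`, `1 ↦ 01`. -/
def h : Fin 2 → List (Fin 2) := ![[1, 0, 1], [0, 1]]

/-- one derivation step -/
def step (u : List (Fin 2)) : List (Fin 2) := u.flatMap h

def W (m : ℕ) : List (Fin 2) := step^[m] [0]

theorem step_append (u v : List (Fin 2)) : step (u ++ v) = step u ++ step v := by
  simp [step]

theorem step_inj : Function.Injective step := by
  intro u
  induction u with
  | nil =>
    intro v hv
    cases v with
    | nil => rfl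
    | cons b v => fin_cases b <;> simp [step, h] at hv
  | cons a u ih =>
    intro v hv
    cases v with
    | nil => fin_cases a <;> simp [step, h] at hv
    | cons b v =>
      fin_cases a <;> fin_cases b <;> simp [step, h] at hv ⊢
      · exact ih hv
      · exact ih hv

theorem W_succ (m : ℕ) : W (m + 1) = step (W m) := Function.iterate_succ_apply' _ _ _

theorem step_prod (L : List ℕ) (m : ℕ) (hL : ∀ i ∈ L, i ≤ m) :
    step (L.map (fun i => W (m - i))).flatten = (L.map (fun i => W (m + 1 - i))).flatten := by
  induction L with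
  | nil => rfl
  | cons a L ih =>
    have ha : a ≤ m := hL a (by simp)
    have h1 : m + 1 - a = (m - a) + 1 := by omega
    simp only [List.map_cons, List.flatten_cons, step_append]
    rw [ih (fun i hi => hL i (by simp [hi])), h1, W_succ]

theorem no_depth_two (L : List ℕ) (hpos : ∀ i ∈ L, 0 < i) (hle : ∀ i ∈ L, i ≤ 2)
    (k : ℕ) (h1 : W (k + 2) = (L.map (fun i => W (k + 2 - i))).flatten) : False := by
  have h2 : W 2 = (L.map (fun i => W (2 - i))).flatten := by
    induction k with
    | zero => simpa using h1
    | succ k ih =>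
      apply ih
      have h3 : step (W (k + 2)) = step (L.map (fun i => W (k + 2 - i))).flatten := by
        rw [step_prod L (k + 2) (fun i hi => (hle i hi).trans (by omega)), ← W_succ]
        have : k + 2 + 1 = k + 1 + 2 := by omega
        rw [this]; exact h1
      exact step_inj h3
  have w0 : W 0 = [0] := rfl
  have w1 : W 1 = [1, 0, 1] := by decide
  have w2 : W 2 = [0, 1, 1, 0, 1, 0, 1] := by decide
  rw [w2] at h2
  cases L with
  | nil => simp at h2
  | cons a L =>
    have ha1 := hpos a (by simp)
    have ha2 := hle a (by simp)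
    have : a = 1 ∨ a = 2 := by omega
    rcases this with rfl | rfl
    · simp [w1] at h2
    · simp [w0] at h2
      cases L with
      | nil => simp at h2
      | cons b L =>
        have hb1 := hpos b (by simp)
        have hb2 := hle b (by simp)
        have : b = 1 ∨ b = 2 := by omega
        rcases this with rfl | rfl
        · simp [w1] at h2
        · simp [w0] at h2

theorem depth_three (m : ℕ) :
    W (m + 3) = (([2, 3, 2, 2, 1] : List ℕ).map (fun i => W (m + 3 - i))).flatten := by
  induction m with
  | zero => decide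
  | succ m ih =>
    have h1 : m + 1 + 3 = (m + 3) + 1 := by omega
    rw [h1, W_succ, ih, step_prod]
    intro i hi
    simp at hi
    omega

theorem main : ¬ (∀ (n : ℕ) (h : Fin n → List (Fin n)) (w : List (Fin n)),
    (∃ d : ℕ, ∃ L : List ℕ, ∃ N : ℕ, L ≠ [] ∧ (∀ i ∈ L, 0 < i) ∧ L.foldr max 0 = d ∧ d ≤ N ∧
        ∀ m : ℕ, N ≤ m →
          (fun u : List (Fin n) => u.flatMap h)^[m] w =
            (L.map (fun i => (fun u : List (Fin n) => u.flatMap h)^[m - i] w)).flatten) ↔
    (∃ d : ℕ, d ≤ n.factorial ∧ ∃ L : List ℕ, ∃ N : ℕ, L ≠ [] ∧ (∀ i ∈ L, 0 < i) ∧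
        L.foldr max 0 = d ∧ d ≤ N ∧
        ∀ m : ℕ, N ≤ m →
          (fun u : List (Fin n) => u.flatMap h)^[m] w =
            (L.map (fun i => (fun u : List (Fin n) => u.flatMap h)^[m - i] w)).flatten)) := by
  intro H
  have h1 := (H 2 h [0]).1 ⟨3, [2, 3, 2, 2, 1], 3, by simp, by simp, by simp, le_rfl, by
    intro m hm
    obtain ⟨k, rfl⟩ := Nat.exists_eq_add_of_le' hm
    exact depth_three k⟩
  obtain ⟨d, hd, L, N, _, hpos, hmax, _, hN⟩ := h1
  have hle : ∀ i ∈ L, i ≤ 2 := by
    intro i hi
    have h2 : ∀ (L : List ℕ), ∀ i ∈ L, i ≤ L.foldr max 0 := by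
      intro L
      induction L with
      | nil => intro i hi; simp at hi
      | cons a L ih =>
        intro i hi
        rcases List.mem_cons.1 hi with rfl | hi
        · simp
        · have := ih i hi
          simp only [List.foldr_cons]
          omega
    have h3 := h2 L i hi
    rw [hmax] at h3
    have : Nat.factorial 2 = 2 := rfl
    omega
  exact no_depth_two L hpos hle N (hN (N + 2) (by omega))

end Pool.Agent.D0L
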